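import Mathlib

set_option autoImplicit false

open Module Submodule Finset

namespace Pool.Agent.Results.MP_6601f2_co.HighDegreePoints

open scoped Classical in
section
variable {K : Type} [Field K] [Finite K] {V : Type} [AddCommGroup V] [Module K V] [Finite V]

set_option linter.unusedSectionVars false

instance instFQ (S : Submodule K V) : Finite (V ⧸ S) := Finite.of_surjective _ (mkQ_surjective S)

noncomputable instance instFS : Fintype (Submodule K V) := Fintype.ofFinite _

/-- the points (one-dimensional subspaces) below `W` -/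
noncomputable def pts (W : Submodule K V) : Finset (Submodule K V) :=
  univ.filter (fun P => finrank K P = 1 ∧ P ≤ W)

/-- the `b`-dimensional subspaces containing `S` -/
noncomputable def above (b : ℕ) (S : Submodule K V) : Finset (Submodule K V) :=
  univ.filter (fun W => finrank K W = b ∧ S ≤ W)

lemma pts_card (W : Submodule K V) :
    (pts W).card * (Nat.card K - 1) = Nat.card K ^ finrank K W - 1 := by
  have h1 : (pts W).card = Nat.card (Projectivization K W) := by
    rw [Nat.card_congr (Projectivization.equivSubmodule K W), Nat.card_eq_fintype_card,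
      Fintype.card_subtype]
    symm
    refine Finset.card_nbij' (fun H => H.map W.subtype) (fun P => P.comap W.subtype) ?_ ?_ ?_ ?_
    · intro H hH
      simp only [pts, Finset.coe_filter, Finset.mem_univ, true_and, Set.mem_ofPred_eq] at hH ⊢
      exact ⟨by rw [finrank_map_subtype_eq]; exact hH, map_subtype_le W H⟩
    · intro P hP
      simp only [pts, Finset.coe_filter, Finset.mem_univ, true_and, Set.mem_ofPred_eq] at hP ⊢
      rw [← finrank_map_subtype_eq W (P.comap W.subtype), map_comap_subtype,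
        inf_eq_right.mpr hP.2]
      exact hP.1
    · intro H hH
      exact comap_map_eq_of_injective (injective_subtype W) H
    · intro P hP
      simp only [pts, Finset.coe_filter, Finset.mem_univ, true_and, Set.mem_ofPred_eq] at hP
      simp only [map_comap_subtype, inf_eq_right]
      exact hP.2
  rw [h1, ← Projectivization.card K W]
  congr 1
  rw [Module.natCard_eq_pow_finrank (K := K) (V := W)]

lemma finrank_comap_mkQ (S : Submodule K V) (W : Submodule K (V ⧸ S)) :
    finrank K (W.comap S.mkQ) = finrank K W + finrank K S := by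
  have h1 := LinearMap.finrank_range_add_finrank_ker ((S.mkQ).domRestrict (W.comap S.mkQ))
  have h2 : LinearMap.range ((S.mkQ).domRestrict (W.comap S.mkQ)) = W := by
    rw [LinearMap.range_domRestrict, map_comap_eq_of_surjective (mkQ_surjective S)]
  have h3 : finrank K (LinearMap.ker ((S.mkQ).domRestrict (W.comap S.mkQ))) = finrank K S := by
    rw [LinearMap.ker_domRestrict, ker_mkQ]
    rw [← finrank_map_subtype_eq (W.comap S.mkQ) (S.comap (W.comap S.mkQ).subtype),
      map_comap_subtype, inf_eq_right.mpr]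
    intro x hx
    rw [mem_comap, mkQ_apply, (Quotient.mk_eq_zero S).mpr hx]
    exact W.zero_mem
  rw [h2, h3] at h1
  omega

lemma above_card (S : Submodule K V) (b : ℕ) :
    (above (b + finrank K S) S).card
      = (univ.filter (fun W : Submodule K (V ⧸ S) => finrank K W = b)).card := by
  symm
  refine Finset.card_nbij' (fun W => W.comap S.mkQ) (fun W => W.map S.mkQ) ?_ ?_ ?_ ?_
  · intro W hW
    simp only [above, Finset.coe_filter, Finset.mem_univ, true_and, Set.mem_ofPred_eq] at hW ⊢
    refine ⟨by rw [finrank_comap_mkQ, hW], ?_⟩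
    intro x hx
    rw [mem_comap, mkQ_apply, (Quotient.mk_eq_zero S).mpr hx]
    exact W.zero_mem
  · intro W hW
    simp only [above, Finset.coe_filter, Finset.mem_univ, true_and, Set.mem_ofPred_eq] at hW ⊢
    have h := finrank_comap_mkQ S (W.map S.mkQ)
    rw [comap_map_mkQ, sup_eq_right.mpr hW.2] at h
    omega
  · intro W hW
    exact map_comap_eq_of_surjective (mkQ_surjective S) W
  · intro W hW
    simp only [above, Finset.coe_filter, Finset.mem_univ, true_and, Set.mem_ofPred_eq] at hW
    simp only [comap_map_mkQ, sup_eq_right]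
    exact hW.2

/-- the number of `b`-dimensional subspaces -/
noncomputable def cnt (K : Type) [Field K] [Finite K] (V : Type) [AddCommGroup V] [Module K V]
    [Finite V] (b : ℕ) : ℕ :=
  (univ.filter (fun W : Submodule K V => finrank K W = b)).card

lemma prod_pos' {q : ℕ} (hq : 1 < q) (b : ℕ) : 0 < ∏ j ∈ range b, (q ^ (b - j) - 1) := by
  refine Finset.prod_pos fun j hj => ?_
  have hj' := Finset.mem_range.mp hj
  have : 1 < q ^ (b - j) := Nat.one_lt_pow (by omega) hq
  omega

lemma flag_count (b : ℕ) (c : ℕ)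
    (hc : ∀ P : Submodule K V, finrank K P = 1 → cnt K (V ⧸ P) b = c) :
    cnt K V (b + 1) * (Nat.card K ^ (b + 1) - 1) = (Nat.card K ^ finrank K V - 1) * c := by
  have hq : 1 < Nat.card K := Finite.one_lt_card
  have h := Finset.sum_card_bipartiteAbove_eq_sum_card_bipartiteBelow
    (s := univ.filter (fun W : Submodule K V => finrank K W = b + 1))
    (t := pts (⊤ : Submodule K V)) (fun W P => P ≤ W)
  have h1 : ∀ W ∈ univ.filter (fun W : Submodule K V => finrank K W = b + 1),
      ((pts (⊤ : Submodule K V)).bipartiteAbove (fun W P => P ≤ W) W).card * (Nat.card K - 1)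
        = Nat.card K ^ (b + 1) - 1 := by
    intro W hW
    have hW' : finrank K W = b + 1 := by simpa using hW
    rw [← hW', ← pts_card W]
    congr 2
    ext P
    simp [Finset.bipartiteAbove, pts]
  have h2 : ∀ P ∈ pts (⊤ : Submodule K V),
      ((univ.filter (fun W : Submodule K V => finrank K W = b + 1)).bipartiteBelow
        (fun W P => P ≤ W) P).card = c := by
    intro P hP
    have hP' : finrank K P = 1 := by simpa [pts] using hP
    rw [← hc P hP', cnt, ← above_card P b, hP']
    congr 1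
    ext W
    simp [Finset.bipartiteBelow, above]
  have h3 : (∑ W ∈ univ.filter (fun W : Submodule K V => finrank K W = b + 1),
      ((pts (⊤ : Submodule K V)).bipartiteAbove (fun W P => P ≤ W) W).card) * (Nat.card K - 1)
        = cnt K V (b + 1) * (Nat.card K ^ (b + 1) - 1) := by
    rw [Finset.sum_mul, Finset.sum_congr rfl h1]
    simp [cnt]
  rw [← h3, h, Finset.sum_congr rfl h2, Finset.sum_const, smul_eq_mul, mul_right_comm,
    pts_card, finrank_top]

/-- The Gaussian binomial coefficient `[a choose b]_q`. -/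
def gb (q a b : ℕ) : ℕ :=
  (∏ j ∈ range b, (q ^ (a - j) - 1)) / ∏ j ∈ range b, (q ^ (b - j) - 1)

lemma finrank_quot_point (P : Submodule K V) (hP : finrank K P = 1) :
    finrank K (V ⧸ P) = finrank K V - 1 := by
  have := Submodule.finrank_quotient_add_finrank P
  omega

end

section
variable {K : Type} [Field K] [Finite K]

lemma cnt_mul (b : ℕ) : ∀ (V : Type) [AddCommGroup V] [Module K V] [Finite V],
    b ≤ finrank K V →
    cnt K V b * ∏ j ∈ range b, (Nat.card K ^ (b - j) - 1)
      = ∏ j ∈ range b, (Nat.card K ^ (finrank K V - j) - 1) := by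
  have hq : 1 < Nat.card K := Finite.one_lt_card
  induction b with
  | zero =>
    intro V _ _ _ _
    simp only [range_zero, prod_empty, mul_one]
    rw [cnt, Finset.card_eq_one]
    refine ⟨⊥, ?_⟩
    ext W
    simp
  | succ b ih =>
    intro V _ _ _ hb
    set a := finrank K V with ha
    have hc : ∀ P : Submodule K V, finrank K P = 1 →
        cnt K (V ⧸ P) b * ∏ j ∈ range b, (Nat.card K ^ (b - j) - 1)
          = ∏ j ∈ range b, (Nat.card K ^ (a - 1 - j) - 1) := by
      intro P hP
      have := ih (V ⧸ P) (by rw [finrank_quot_point P hP]; omega)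
      rw [finrank_quot_point P hP] at this
      exact this
    have hpos := prod_pos' hq b
    have hc' : ∀ P : Submodule K V, finrank K P = 1 →
        cnt K (V ⧸ P) b = (∏ j ∈ range b, (Nat.card K ^ (a - 1 - j) - 1)) /
          ∏ j ∈ range b, (Nat.card K ^ (b - j) - 1) := by
      intro P hP
      exact (Nat.div_eq_of_eq_mul_left hpos (hc P hP).symm).symm
    have h := flag_count b _ hc'
    obtain ⟨P, hP⟩ : ∃ P : Submodule K V, finrank K P = 1 := by
      have : 1 ≤ Module.finrank K V := by omega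
      obtain ⟨v, hv⟩ : ∃ v : V, v ≠ 0 := by
        have : Nontrivial V := Module.nontrivial_of_finrank_pos (R := K) (by omega)
        exact exists_ne 0
      exact ⟨span K {v}, finrank_span_singleton hv⟩
    have h5 := hc P hP
    rw [hc' P hP] at h5
    rw [Finset.prod_range_succ', Finset.prod_range_succ']
    have e1 : ∏ j ∈ range b, (Nat.card K ^ (b + 1 - (j + 1)) - 1)
        = ∏ j ∈ range b, (Nat.card K ^ (b - j) - 1) :=
      Finset.prod_congr rfl fun j _ => by rw [show b + 1 - (j + 1) = b - j by omega]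
    have e2 : ∏ j ∈ range b, (Nat.card K ^ (a - (j + 1)) - 1)
        = ∏ j ∈ range b, (Nat.card K ^ (a - 1 - j) - 1) :=
      Finset.prod_congr rfl fun j _ => by rw [show a - (j + 1) = a - 1 - j by omega]
    rw [e1, e2, Nat.sub_zero, Nat.sub_zero]
    rw [← h5, mul_comm (∏ j ∈ range b, (Nat.card K ^ (b - j) - 1)) (Nat.card K ^ (b + 1) - 1),
      ← mul_assoc, h]
    ring

lemma cnt_eq_gb (V : Type) [AddCommGroup V] [Module K V] [Finite V] (b : ℕ)
    (hb : b ≤ finrank K V) : cnt K V b = gb (Nat.card K) (finrank K V) b := by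
  have hq : 1 < Nat.card K := Finite.one_lt_card
  exact (Nat.div_eq_of_eq_mul_left (prod_pos' hq b) (cnt_mul b V hb).symm).symm

lemma above_eq_gb {V : Type} [AddCommGroup V] [Module K V] [Finite V] (S : Submodule K V)
    (m : ℕ) (h1 : finrank K S ≤ m) (h2 : m ≤ finrank K V) :
    (above m S).card = gb (Nat.card K) (finrank K V - finrank K S) (m - finrank K S) := by
  obtain ⟨b, rfl⟩ : ∃ b, m = b + finrank K S := ⟨m - finrank K S, by omega⟩
  have hQ := Submodule.finrank_quotient_add_finrank S
  rw [above_card S b]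
  have := cnt_eq_gb (K := K) (V ⧸ S) b (by omega)
  rw [cnt] at this
  rw [this]
  congr 1 <;> omega

lemma gb_rec (a b : ℕ) (hb : b + 1 ≤ a) :
    gb (Nat.card K) a (b + 1) * (Nat.card K ^ (b + 1) - 1)
      = (Nat.card K ^ a - 1) * gb (Nat.card K) (a - 1) b := by
  have hV : finrank K (Fin a → K) = a := by simp
  have h := flag_count (K := K) (V := Fin a → K) b (gb (Nat.card K) (a - 1) b) ?_
  · rw [cnt_eq_gb (Fin a → K) (b + 1) (by omega), hV] at h
    exact h
  · intro P hP
    have h1 : finrank K ((Fin a → K) ⧸ P) = a - 1 := by rw [finrank_quot_point P hP, hV]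
    rw [cnt_eq_gb _ b (by omega), h1]

/-- numerical comparison: `[k]^2 [n-3, k-3] ≤ [n-2, k-2]` for `n ≥ 3k` -/
lemma numeric (n k p : ℕ) (hk : 3 ≤ k) (hn : 3 * k ≤ n)
    (hp : p * (Nat.card K - 1) = Nat.card K ^ k - 1) :
    p * (p * gb (Nat.card K) (n - 3) (k - 3)) ≤ gb (Nat.card K) (n - 2) (k - 2) := by
  have hq : 1 < Nat.card K := Finite.one_lt_card
  set q := Nat.card K with hqdef
  have h := gb_rec (K := K) (n - 2) (k - 3) (by omega)
  rw [show k - 3 + 1 = k - 2 by omega, show n - 2 - 1 = n - 3 by omega, ← hqdef] at h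
  have hpos : 0 < q ^ (k - 2) - 1 := by
    have : 1 < q ^ (k - 2) := Nat.one_lt_pow (by omega) hq
    omega
  refine Nat.le_of_mul_le_mul_right ?_ hpos
  rw [h]
  have hpk : p ≤ q ^ k := by
    have h1 : p * 1 ≤ p * (q - 1) := Nat.mul_le_mul_left p (by omega)
    omega
  have h3 : p * p * (q ^ (k - 2) - 1) ≤ q ^ (n - 2) - 1 := by
    have h4 : p * p * (q ^ (k - 2) - 1) ≤ q ^ k * q ^ k * (q ^ (k - 2) - 1) :=
      Nat.mul_le_mul_right _ (Nat.mul_le_mul hpk hpk)
    have h5 : q ^ k * q ^ k * (q ^ (k - 2) - 1) = q ^ (3 * k - 2) - q ^ k * q ^ k := by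
      rw [Nat.mul_sub, mul_one, ← pow_add, ← pow_add]
      congr 2
      omega
    have h6 : q ^ (3 * k - 2) ≤ q ^ (n - 2) := Nat.pow_le_pow_right (by omega) (by omega)
    have h7 : 1 ≤ q ^ k * q ^ k := Nat.one_le_iff_ne_zero.mpr (by positivity)
    omega
  calc p * (p * gb q (n - 3) (k - 3)) * (q ^ (k - 2) - 1)
      = (p * p * (q ^ (k - 2) - 1)) * gb q (n - 3) (k - 3) := by ring
    _ ≤ (q ^ (n - 2) - 1) * gb q (n - 3) (k - 3) := Nat.mul_le_mul_right _ h3

end

set_option linter.unusedSectionVars false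

open scoped Classical in
section
variable {K : Type} [Field K] [Finite K] {V : Type} [AddCommGroup V] [Module K V] [Finite V]

lemma exists_pt (A : Submodule K V) (hA : A ≠ ⊥) : ∃ P : Submodule K V, finrank K P = 1 ∧ P ≤ A := by
  obtain ⟨v, hv, hv0⟩ := exists_mem_ne_zero_of_ne_bot hA
  exact ⟨span K {v}, finrank_span_singleton hv0, (span_singleton_le_iff_mem v A).mpr hv⟩

lemma point_ne_bot {P : Submodule K V} (hP : finrank K P = 1) : P ≠ ⊥ := by
  rintro rfl
  simp at hP

/-- two distinct points span a line; more generally adding a point outside. -/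
lemma finrank_sup_point (S P : Submodule K V) (hP : finrank K P = 1) (h : ¬ P ≤ S) :
    finrank K (S ⊔ P : Submodule K V) = finrank K S + 1 := by
  have h1 := Submodule.finrank_sup_add_finrank_inf_eq S P
  have h2 : finrank K (S ⊓ P : Submodule K V) = 0 := by
    by_contra h0
    apply h
    have h3 : S ⊓ P = P := eq_of_le_of_finrank_le inf_le_right (by omega)
    exact inf_eq_right.mp h3
  omega

lemma point_eq {P Q : Submodule K V} (hP : finrank K P = 1) (hQ : finrank K Q = 1) (h : P ≤ Q) :
    P = Q := eq_of_le_of_finrank_eq h (by omega)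

lemma exists_between' (m : ℕ) : ∀ (A B : Submodule K V), A ≤ B → finrank K A + m ≤ finrank K B →
    ∃ C : Submodule K V, A ≤ C ∧ C ≤ B ∧ finrank K C = finrank K A + m := by
  induction m with
  | zero => intro A B h _; exact ⟨A, le_rfl, h, rfl⟩
  | succ m ih =>
    intro A B h hm
    have hne : A ≠ B := by rintro rfl; omega
    obtain ⟨v, hvB, hvA⟩ := SetLike.exists_of_lt (lt_of_le_of_ne h hne)
    have hv0 : v ≠ 0 := by rintro rfl; exact hvA A.zero_mem
    have h1 : finrank K (A ⊔ span K {v} : Submodule K V) = finrank K A + 1 :=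
      finrank_sup_point A _ (finrank_span_singleton hv0)
        (fun hh => hvA ((span_singleton_le_iff_mem v A).mp hh))
    obtain ⟨C, h2, h3, h4⟩ := ih (A ⊔ span K {v}) B
      (sup_le h ((span_singleton_le_iff_mem v B).mpr hvB)) (by omega)
    exact ⟨C, le_sup_left.trans h2, h3, by omega⟩

/-- the degree of a subspace in a family -/
noncomputable def deg (F : Finset (Submodule K V)) (S : Submodule K V) : ℕ :=
  (F.filter (fun A => S ≤ A)).card

lemma deg_le (F : Finset (Submodule K V)) (k : ℕ) (hF : ∀ A ∈ F, finrank K A = k)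
    (S : Submodule K V) (h1 : finrank K S ≤ k) (h2 : k ≤ finrank K V) :
    deg F S ≤ gb (Nat.card K) (finrank K V - finrank K S) (k - finrank K S) := by
  rw [← above_eq_gb S k h1 h2, deg]
  refine Finset.card_le_card fun A hA => ?_
  simp only [Finset.mem_filter, above, Finset.mem_univ, true_and] at hA ⊢
  exact ⟨hF A hA.1, hA.2⟩

lemma branching (F : Finset (Submodule K V)) (S G : Submodule K V) (hG : ∀ A ∈ F, A ⊓ G ≠ ⊥)
    (m : ℕ) (h : ∀ Q ∈ pts G, deg F (S ⊔ Q) ≤ m) : deg F S ≤ (pts G).card * m := by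
  have h1 : F.filter (fun A => S ≤ A)
      ⊆ (pts G).biUnion (fun Q => F.filter (fun A => S ⊔ Q ≤ A)) := by
    intro A hA
    simp only [Finset.mem_filter] at hA
    obtain ⟨Q, hQ1, hQ2⟩ := exists_pt (A ⊓ G) (hG A hA.1)
    simp only [Finset.mem_biUnion, Finset.mem_filter, pts, Finset.mem_univ, true_and]
    exact ⟨Q, ⟨hQ1, hQ2.trans inf_le_right⟩, hA.1, sup_le hA.2 (hQ2.trans inf_le_left)⟩
  exact (Finset.card_le_card h1).trans (Finset.card_biUnion_le_card_mul _ _ _ h)

/-- the hyperplanes of `Z` through `P` and not through `X` -/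
lemma fibre (Z P X : Submodule K V) (k : ℕ) (hZ : finrank K Z = k + 1) (hP : finrank K P = 1)
    (hX : finrank K X = 1) (hPX : P ≠ X) (hPZ : P ≤ Z) (hXZ : X ≤ Z) :
    (univ.filter (fun A : Submodule K V =>
      finrank K A = k ∧ P ≤ A ∧ ¬ X ≤ A ∧ X ⊔ A = Z)).card ≤ Nat.card K ^ (k - 1) := by
  have hXP : ¬ X ≤ P := fun h => hPX (point_eq hX hP h).symm
  obtain ⟨x, hx, hx0⟩ := exists_mem_ne_zero_of_ne_bot (point_ne_bot hX)
  have hXs : X = span K {x} :=
    (point_eq (finrank_span_singleton hx0) hX ((span_singleton_le_iff_mem x X).mpr hx)).symm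
  set x' : Z := ⟨x, hXZ hx⟩ with hx'
  have key : ∀ A : Submodule K V, finrank K A = k → ¬ X ≤ A → A ≤ Z →
      ∃ φ : Module.Dual K Z, φ x' = 1 ∧ (LinearMap.ker φ).map Z.subtype = A := by
    intro A hA hXA hAZ
    have hA' : finrank K (A.comap Z.subtype) = k := by
      rw [← finrank_map_subtype_eq Z (A.comap Z.subtype), map_comap_subtype,
        inf_eq_right.mpr hAZ, hA]
    have hlt : A.comap Z.subtype < ⊤ := by
      refine lt_top_iff_ne_top.mpr fun h => ?_
      rw [h, finrank_top] at hA'
      omega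
    obtain ⟨f, hf0, hf⟩ := Submodule.exists_le_ker_of_lt_top _ hlt
    have hker : finrank K (LinearMap.ker f) ≤ k := by
      have h1 := LinearMap.finrank_range_add_finrank_ker f
      have h2 : finrank K (LinearMap.range f) ≠ 0 := by
        intro h
        rw [Submodule.finrank_eq_zero, LinearMap.range_eq_bot] at h
        exact hf0 h
      omega
    have hker' : A.comap Z.subtype = LinearMap.ker f :=
      eq_of_le_of_finrank_le hf (by omega)
    have hfx : f x' ≠ 0 := by
      intro h
      apply hXA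
      rw [hXs, span_singleton_le_iff_mem]
      have : x' ∈ A.comap Z.subtype := by rw [hker']; exact h
      exact this
    refine ⟨(f x')⁻¹ • f, by simp [hfx], ?_⟩
    rw [LinearMap.ker_smul _ _ (inv_ne_zero hfx), ← hker', map_comap_subtype,
      inf_eq_right.mpr hAZ]
  by_cases hne : (univ.filter (fun A : Submodule K V =>
      finrank K A = k ∧ P ≤ A ∧ ¬ X ≤ A ∧ X ⊔ A = Z)).Nonempty
  swap
  · rw [Finset.not_nonempty_iff_eq_empty] at hne
    rw [hne]
    simp
  obtain ⟨A0, hA0⟩ := hne
  simp only [Finset.mem_filter, Finset.mem_univ, true_and] at hA0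
  obtain ⟨φ0, hφ0, hker0⟩ := key A0 hA0.1 hA0.2.2.1 (hA0.2.2.2 ▸ le_sup_right)
  set D : Submodule K (Module.Dual K Z) := ((P ⊔ X).comap Z.subtype).dualAnnihilator with hD
  have hDrank : finrank K D = k - 1 := by
    have h1 := Subspace.finrank_add_finrank_dualAnnihilator_eq ((P ⊔ X).comap Z.subtype)
    have h2 : finrank K ((P ⊔ X).comap Z.subtype) = 2 := by
      rw [← finrank_map_subtype_eq Z ((P ⊔ X).comap Z.subtype), map_comap_subtype,
        inf_eq_right.mpr (sup_le hPZ hXZ), finrank_sup_point P X hX hXP, hP]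
    rw [h2, hZ, ← hD] at h1
    omega
  have : Finite (Module.Dual K Z) := Module.finite_of_finite K
  have : Fintype D := Fintype.ofFinite D
  have hDcard : Fintype.card D = Nat.card K ^ (k - 1) := by
    rw [← Nat.card_eq_fintype_card, Module.natCard_eq_pow_finrank (K := K) (V := D), hDrank]
  rw [← hDcard, ← Finset.card_univ]
  have hsub : (univ.filter (fun A : Submodule K V =>
      finrank K A = k ∧ P ≤ A ∧ ¬ X ≤ A ∧ X ⊔ A = Z))
      ⊆ (univ : Finset D).image
        (fun ψ : D => (LinearMap.ker (φ0 + (ψ : Module.Dual K Z))).map Z.subtype) := by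
    intro A hA
    simp only [Finset.mem_filter, Finset.mem_univ, true_and] at hA
    obtain ⟨φ, hφ, hker⟩ := key A hA.1 hA.2.2.1 (hA.2.2.2 ▸ le_sup_right)
    simp only [Finset.mem_image, Finset.mem_univ, true_and]
    refine ⟨⟨φ - φ0, ?_⟩, ?_⟩
    · rw [hD, mem_dualAnnihilator]
      intro z hz
      rw [mem_comap, Submodule.mem_sup] at hz
      obtain ⟨y, hy, w, hw, hyw⟩ := hz
      have hz' : z = ⟨y, hPZ hy⟩ + ⟨w, hXZ hw⟩ := by
        apply Subtype.ext
        exact hyw.symm
      have h1 : ∀ (ψ : Module.Dual K Z) (B : Submodule K V), P ≤ B →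
          (LinearMap.ker ψ).map Z.subtype = B → ψ ⟨y, hPZ hy⟩ = 0 := by
        intro ψ B hB hψ
        have : y ∈ (LinearMap.ker ψ).map Z.subtype := by rw [hψ]; exact hB hy
        obtain ⟨u, hu, huy⟩ := this
        have : u = ⟨y, hPZ hy⟩ := Subtype.ext huy
        rw [← this]
        exact hu
      rw [hXs, mem_span_singleton] at hw
      obtain ⟨c, rfl⟩ := hw
      have h2 : (⟨c • x, hXZ (by rw [hXs]; exact mem_span_singleton.mpr ⟨c, rfl⟩)⟩ : Z)
          = c • x' := rfl
      rw [hz', map_add, LinearMap.sub_apply, LinearMap.sub_apply, h1 φ A hA.2.1 hker,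
        h1 φ0 A0 hA0.2.1 hker0, h2, map_smul, map_smul, hφ, hφ0]
      simp
    · simp only [add_sub_cancel]
      exact hker
  exact (Finset.card_le_card hsub).trans Finset.card_image_le

/-- the degree bound once `W'` lies in every `X ⊔ A` -/
lemma deg_bound (F : Finset (Submodule K V)) (k i : ℕ) (hF : ∀ A ∈ F, finrank K A = k)
    (hk : 2 ≤ k) (hik : i ≤ k) (hn : k + 1 ≤ finrank K V)
    (P X W' : Submodule K V) (hP : finrank K P = 1) (hX : finrank K X = 1) (hPX : P ≠ X)
    (hW1 : P ≤ W') (hW2 : X ≤ W') (hW : finrank K W' = i + 1)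
    (hA : ∀ A ∈ F, ¬ X ≤ A → W' ≤ X ⊔ A) :
    deg F P ≤ gb (Nat.card K) (finrank K V - 2) (k - 2)
      + Nat.card K ^ (k - 1) * gb (Nat.card K) (finrank K V - i - 1) (k - i) := by
  have hXP : ¬ X ≤ P := fun h => hPX (point_eq hX hP h).symm
  have hPX2 : finrank K (P ⊔ X : Submodule K V) = 2 := by
    rw [finrank_sup_point P X hX hXP, hP]
  have hsplit : F.filter (fun A => P ≤ A) = F.filter (fun A => P ⊔ X ≤ A)
      ∪ F.filter (fun A => P ≤ A ∧ ¬ X ≤ A) := by
    ext A
    simp only [Finset.mem_filter, Finset.mem_union, sup_le_iff]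
    tauto
  have h1 : deg F (P ⊔ X) ≤ gb (Nat.card K) (finrank K V - 2) (k - 2) := by
    have := deg_le F k hF (P ⊔ X) (by omega) (by omega)
    rwa [hPX2] at this
  have h2 : (F.filter (fun A => P ≤ A ∧ ¬ X ≤ A)).card
      ≤ Nat.card K ^ (k - 1) * (above (k + 1) W').card := by
    refine Finset.card_le_mul_card_image_of_maps_to (f := fun A => X ⊔ A) ?_ _ ?_
    · intro A hAm
      simp only [Finset.mem_filter] at hAm
      simp only [above, Finset.mem_filter, Finset.mem_univ, true_and]
      refine ⟨?_, hA A hAm.1 hAm.2.2⟩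
      rw [sup_comm, finrank_sup_point A X hX hAm.2.2, hF A hAm.1]
    · intro Z hZ
      simp only [above, Finset.mem_filter, Finset.mem_univ, true_and] at hZ
      refine le_trans (Finset.card_le_card ?_)
        (fibre Z P X k hZ.1 hP hX hPX (hW1.trans hZ.2) (hW2.trans hZ.2))
      intro A hAm
      simp only [Finset.mem_filter, Finset.mem_univ, true_and] at hAm ⊢
      exact ⟨hF A hAm.1.1, hAm.1.2.1, hAm.1.2.2, hAm.2⟩
  have h3 : (above (k + 1) W').card = gb (Nat.card K) (finrank K V - i - 1) (k - i) := by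
    rw [above_eq_gb W' (k + 1) (by omega) hn, hW]
    congr 1
    omega
  rw [deg, hsplit]
  refine (Finset.card_union_le _ _).trans ?_
  rw [h3] at h2
  exact add_le_add h1 h2

/-- The common space of the high points. -/
lemma core (F : Finset (Submodule K V)) (k : ℕ) (hF : ∀ A ∈ F, finrank K A = k)
    (hk : 3 ≤ k) (hn : 3 * k ≤ finrank K V) (hint : ∀ A ∈ F, ∀ B ∈ F, A ⊓ B ≠ ⊥)
    (H : Finset (Submodule K V)) (hH : ∀ P ∈ H, finrank K P = 1 ∧
      gb (Nat.card K) (finrank K V - 2) (k - 2) < deg F P) (hne : H.Nonempty) :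
    ∃ X W : Submodule K V, finrank K X = 1 ∧ X ≤ W ∧ (∀ P ∈ H, P ≤ W) ∧
      ∀ A ∈ F, ¬ X ≤ A → W ≤ X ⊔ A := by
  set q := Nat.card K with hq
  have hq1 : 1 < q := Finite.one_lt_card
  set n := finrank K V with hnn
  -- number of points of a `k`-space
  by_cases hτ : ∃ X : Submodule K V, finrank K X = 1 ∧ ∀ A ∈ F, X ≤ A
  · obtain ⟨X, hX, hXA⟩ := hτ
    exact ⟨X, ⊤, hX, le_top, fun _ _ => le_top, fun A hA h => absurd (hXA A hA) h⟩
  have hτ' : ∀ X : Submodule K V, finrank K X = 1 → ∃ A ∈ F, ¬ X ≤ A := by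
    intro X hX
    by_contra h
    push Not at h
    exact hτ ⟨X, hX, h⟩
  obtain ⟨P0, hP0⟩ := hne
  obtain ⟨A0, hA0, -⟩ := hτ' P0 (hH P0 hP0).1
  set p := (pts A0).card with hp
  have hpk : p * (q - 1) = q ^ k - 1 := by rw [hp, pts_card, hF A0 hA0]
  have hptsle : ∀ G : Submodule K V, finrank K G ≤ k → (pts G).card ≤ p := by
    intro G hG
    have h1 := pts_card G
    have h2 : q ^ finrank K G ≤ q ^ k := Nat.pow_le_pow_right (by omega) hG
    refine Nat.le_of_mul_le_mul_right (c := q - 1) ?_ (by omega)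
    rw [hpk, h1]
    exact Nat.sub_le_sub_right h2 1
  set g3 := gb q (n - 3) (k - 3) with hg3
  have hdeg3 : ∀ S : Submodule K V, finrank K S = 3 → deg F S ≤ g3 := by
    intro S hS
    have := deg_le F k hF S (by omega) (by omega)
    rwa [hS] at this
  -- a popular line meets every subspace that meets all members
  have hpop : ∀ L G : Submodule K V, finrank K L = 2 → p * g3 < deg F L → finrank K G ≤ k →
      (∀ A ∈ F, A ⊓ G ≠ ⊥) → L ⊓ G ≠ ⊥ := by
    intro L G hL hLp hG hGA h0
    have h1 := branching F L G hGA g3 ?_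
    · have h2 := Nat.mul_le_mul_right g3 (hptsle G hG)
      omega
    · intro Q hQ
      simp only [pts, Finset.mem_filter, Finset.mem_univ, true_and] at hQ
      apply hdeg3
      rw [finrank_sup_point L Q hQ.1, hL]
      intro h
      have : Q ≤ L ⊓ G := le_inf h hQ.2
      rw [h0, le_bot_iff] at this
      exact point_ne_bot hQ.1 this
  have hpopA : ∀ L : Submodule K V, finrank K L = 2 → p * g3 < deg F L →
      ∀ A ∈ F, A ⊓ L ≠ ⊥ := by
    intro L hL hLp A hA
    rw [inf_comm]
    exact hpop L A hL hLp (by rw [hF A hA]) (fun B hB => hint B hB A hA)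
  have hpop2 : ∀ L L' : Submodule K V, finrank K L = 2 → p * g3 < deg F L →
      finrank K L' = 2 → p * g3 < deg F L' → L ⊓ L' ≠ ⊥ := by
    intro L L' h1 h2 h3 h4
    exact hpop L L' h1 h2 (by omega) (hpopA L' h3 h4)
  -- high points lie on popular lines
  have hhigh : ∀ P ∈ H, ∃ L : Submodule K V, finrank K L = 2 ∧ p * g3 < deg F L ∧ P ≤ L := by
    intro P hPH
    obtain ⟨hP, hPd⟩ := hH P hPH
    by_contra hno
    push Not at hno
    obtain ⟨G, hG, hPG⟩ := hτ' P hP
    have h1 := branching F P G (fun B hB => hint B hB G hG) (p * g3) ?_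
    · have h2 := Nat.mul_le_mul_right (p * g3) (hptsle G (by rw [hF G hG]))
      have h3 := numeric (K := K) n k p hk hn hpk
      rw [← hq, ← hg3] at h3
      omega
    · intro Q hQ
      simp only [pts, Finset.mem_filter, Finset.mem_univ, true_and] at hQ
      by_contra hlt
      push Not at hlt
      have h5 : finrank K (P ⊔ Q : Submodule K V) = 2 := by
        rw [finrank_sup_point P Q hQ.1, hP]
        intro h
        exact hPG (point_eq hQ.1 hP h ▸ hQ.2)
      exact hno (P ⊔ Q) h5 hlt le_sup_left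
  by_cases hstar : ∃ X : Submodule K V, finrank K X = 1 ∧
      ∀ L : Submodule K V, finrank K L = 2 → p * g3 < deg F L → X ≤ L
  · -- all popular lines pass through `X`
    obtain ⟨X, hX, hXL⟩ := hstar
    refine ⟨X, ⨅ A ∈ F.filter (fun A => ¬ X ≤ A), (X ⊔ A), hX, ?_, ?_, ?_⟩
    · exact le_iInf₂ fun A _ => le_sup_left
    · intro P hPH
      refine le_iInf₂ fun A hA => ?_
      simp only [Finset.mem_filter] at hA
      obtain ⟨L, hL, hLp, hPL⟩ := hhigh P hPH
      obtain ⟨Q, hQ, hQL⟩ := exists_pt (A ⊓ L) (hpopA L hL hLp A hA.1)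
      have hXQ : ¬ Q ≤ X := fun h => hA.2 (point_eq hQ hX h ▸ hQL.trans inf_le_left)
      have h1 : finrank K (X ⊔ Q : Submodule K V) = 2 := by
        rw [finrank_sup_point X Q hQ hXQ, hX]
      have h2 : X ⊔ Q = L :=
        eq_of_le_of_finrank_eq (sup_le (hXL L hL hLp) (hQL.trans inf_le_right)) (by omega)
      rw [← h2] at hPL
      exact hPL.trans (sup_le_sup_left (hQL.trans inf_le_left) X)
    · intro A hA hXA
      exact iInf₂_le A (Finset.mem_filter.mpr ⟨hA, hXA⟩)
  · -- three popular lines without a common point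
    have hstar' : ∀ X : Submodule K V, finrank K X = 1 →
        ∃ L : Submodule K V, finrank K L = 2 ∧ p * g3 < deg F L ∧ ¬ X ≤ L := by
      intro X hX
      by_contra h
      push Not at h
      exact hstar ⟨X, hX, h⟩
    obtain ⟨L1, hL1, hL1p, hPL1⟩ := hhigh P0 hP0
    obtain ⟨L2, hL2, hL2p, hPL2⟩ := hstar' P0 (hH P0 hP0).1
    obtain ⟨X, hX, hXle⟩ := exists_pt (L1 ⊓ L2) (hpop2 L1 L2 hL1 hL1p hL2 hL2p)
    have hX12 : finrank K (L1 ⊓ L2 : Submodule K V) ≤ 1 := by
      by_contra h
      have h1 : L1 ⊓ L2 = L1 := eq_of_le_of_finrank_le inf_le_left (by omega)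
      exact hPL2 (hPL1.trans (inf_eq_left.mp h1))
    have hXe : L1 ⊓ L2 = X := (eq_of_le_of_finrank_le hXle (by omega)).symm
    have hU : finrank K (L1 ⊔ L2 : Submodule K V) = 3 := by
      have h1 := Submodule.finrank_sup_add_finrank_inf_eq L1 L2
      rw [hXe] at h1
      omega
    obtain ⟨L3, hL3, hL3p, hXL3⟩ := hstar' X hX
    -- `L3` lies in `U`
    have hL3U : L3 ≤ L1 ⊔ L2 := by
      obtain ⟨Q1, hQ1, hQ1l⟩ := exists_pt (L3 ⊓ L1) (hpop2 L3 L1 hL3 hL3p hL1 hL1p)
      obtain ⟨Q2, hQ2, hQ2l⟩ := exists_pt (L3 ⊓ L2) (hpop2 L3 L2 hL3 hL3p hL2 hL2p)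
      have hne12 : ¬ Q2 ≤ Q1 := by
        intro h
        have h1 : Q2 = Q1 := point_eq hQ2 hQ1 h
        subst h1
        have h2 : Q2 ≤ L1 ⊓ L2 := le_inf (hQ1l.trans inf_le_right) (hQ2l.trans inf_le_right)
        rw [hXe] at h2
        have h3 : Q2 = X := point_eq hQ2 hX h2
        exact hXL3 (h3 ▸ hQ2l.trans inf_le_left)
      have h1 : finrank K (Q1 ⊔ Q2 : Submodule K V) = 2 := by
        rw [finrank_sup_point Q1 Q2 hQ2 hne12, hQ1]
      have h2 : Q1 ⊔ Q2 = L3 :=
        eq_of_le_of_finrank_eq (sup_le (hQ1l.trans inf_le_left) (hQ2l.trans inf_le_left))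
          (by omega)
      rw [← h2]
      exact sup_le ((hQ1l.trans inf_le_right).trans le_sup_left)
        ((hQ2l.trans inf_le_right).trans le_sup_right)
    have htri : ∀ A : Submodule K V, A ⊓ L1 ≠ ⊥ → A ⊓ L2 ≠ ⊥ → A ⊓ L3 ≠ ⊥ →
        2 ≤ finrank K (A ⊓ (L1 ⊔ L2) : Submodule K V) := by
      intro A h1 h2 h3
      by_contra hlt
      obtain ⟨R1, hR1, hR1l⟩ := exists_pt _ h1
      obtain ⟨R2, hR2, hR2l⟩ := exists_pt _ h2
      obtain ⟨R3, hR3, hR3l⟩ := exists_pt _ h3
      have e1 : R1 = A ⊓ (L1 ⊔ L2) := eq_of_le_of_finrank_le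
        (hR1l.trans (inf_le_inf_left A le_sup_left)) (by omega)
      have e2 : R2 = A ⊓ (L1 ⊔ L2) := eq_of_le_of_finrank_le
        (hR2l.trans (inf_le_inf_left A le_sup_right)) (by omega)
      have e3 : R3 = A ⊓ (L1 ⊔ L2) := eq_of_le_of_finrank_le
        (hR3l.trans (inf_le_inf_left A hL3U)) (by omega)
      have h4 : R1 ≤ L1 ⊓ L2 := le_inf (hR1l.trans inf_le_right)
        ((e1.trans e2.symm) ▸ hR2l.trans inf_le_right)
      rw [hXe] at h4
      have h5 : R1 = X := point_eq hR1 hX h4
      apply hXL3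
      rw [← h5, e1.trans e3.symm]
      exact hR3l.trans inf_le_right
    have hXU : X ≤ L1 ⊔ L2 := (hXle.trans inf_le_left).trans le_sup_left
    refine ⟨X, L1 ⊔ L2, hX, hXU, ?_, ?_⟩
    · intro P hPH
      obtain ⟨L, hL, hLp, hPL⟩ := hhigh P hPH
      have h1 := htri L (hpop2 L L1 hL hLp hL1 hL1p) (hpop2 L L2 hL hLp hL2 hL2p)
        (hpop2 L L3 hL hLp hL3 hL3p)
      have h2 : L ⊓ (L1 ⊔ L2) = L := eq_of_le_of_finrank_le inf_le_left (by omega)
      exact hPL.trans (inf_eq_left.mp h2)
    · intro A hA hXA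
      have h1 := htri A (hpopA L1 hL1 hL1p A hA) (hpopA L2 hL2 hL2p A hA)
        (hpopA L3 hL3 hL3p A hA)
      have h2 : finrank K ((A ⊓ (L1 ⊔ L2)) ⊔ X : Submodule K V)
          = finrank K (A ⊓ (L1 ⊔ L2) : Submodule K V) + 1 :=
        finrank_sup_point _ X hX (fun h => hXA (h.trans inf_le_left))
      have h3 : (A ⊓ (L1 ⊔ L2)) ⊔ X = L1 ⊔ L2 :=
        eq_of_le_of_finrank_le (sup_le inf_le_right hXU) (by omega)
      rw [← h3, sup_comm]
      exact sup_le_sup_left inf_le_left X

/-- number of points of degree greater than the bound -/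
lemma main_count (F : Finset (Submodule K V)) (k i : ℕ) (hF : ∀ A ∈ F, finrank K A = k)
    (hk : 3 ≤ k) (hn : 3 * k ≤ finrank K V) (hi : 1 ≤ i) (hik : i ≤ k)
    (hint : ∀ A ∈ F, ∀ B ∈ F, A ⊓ B ≠ ⊥) :
    ((univ.filter (fun P : Submodule K V => finrank K P = 1 ∧
      gb (Nat.card K) (finrank K V - 2) (k - 2)
        + Nat.card K ^ (k - 1) * gb (Nat.card K) (finrank K V - i - 1) (k - i)
          < deg F P)).card) * (Nat.card K - 1) < Nat.card K ^ (i + 1) - 1 := by
  have hq1 : 1 < Nat.card K := Finite.one_lt_card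
  set H := univ.filter (fun P : Submodule K V => finrank K P = 1 ∧
      gb (Nat.card K) (finrank K V - 2) (k - 2)
        + Nat.card K ^ (k - 1) * gb (Nat.card K) (finrank K V - i - 1) (k - i)
          < deg F P) with hH
  by_contra hcon
  push Not at hcon
  have hpow : Nat.card K ^ 2 ≤ Nat.card K ^ (i + 1) := Nat.pow_le_pow_right (by omega) (by omega)
  have h1H : 1 < H.card := by
    by_contra h
    push Not at h
    have h1 : H.card * (Nat.card K - 1) ≤ 1 * (Nat.card K - 1) := Nat.mul_le_mul_right _ h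
    have h2 : Nat.card K * 2 ≤ Nat.card K ^ 2 := by
      rw [pow_two]
      exact Nat.mul_le_mul_left _ hq1
    omega
  have hHmem : ∀ P ∈ H, finrank K P = 1 ∧
      gb (Nat.card K) (finrank K V - 2) (k - 2)
        + Nat.card K ^ (k - 1) * gb (Nat.card K) (finrank K V - i - 1) (k - i)
          < deg F P := by
    intro P hP
    simpa [hH] using hP
  obtain ⟨X, W, hX, hXW, hHW, hA⟩ := core F k hF hk hn hint H
    (fun P hP => ⟨(hHmem P hP).1, lt_of_le_of_lt (Nat.le_add_right _ _) (hHmem P hP).2⟩)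
    (Finset.card_pos.mp (by omega))
  have hsub : H ⊆ pts W := by
    intro P hP
    simp only [pts, Finset.mem_filter, Finset.mem_univ, true_and]
    exact ⟨(hHmem P hP).1, hHW P hP⟩
  have hWdim : i + 1 ≤ finrank K W := by
    by_contra h
    push Not at h
    have h1 := Nat.mul_le_mul_right (Nat.card K - 1) (Finset.card_le_card hsub)
    rw [pts_card] at h1
    have h2 : Nat.card K ^ finrank K W < Nat.card K ^ (i + 1) :=
      Nat.pow_lt_pow_right hq1 h
    have h3 : 1 ≤ Nat.card K ^ finrank K W := Nat.one_le_pow _ _ (by omega)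
    omega
  obtain ⟨P, hPH, hPX⟩ := Finset.exists_mem_ne h1H X
  have hP := (hHmem P hPH).1
  have hPX2 : finrank K (P ⊔ X : Submodule K V) = 2 := by
    rw [finrank_sup_point P X hX (fun h => hPX (point_eq hX hP h).symm), hP]
  obtain ⟨W', hW1, hW2, hW3⟩ := exists_between' (i - 1) (P ⊔ X) W
    (sup_le (hHW P hPH) hXW) (by omega)
  have hbound := deg_bound F k i hF (by omega) hik (by omega) P X W' hP hX hPX
    (le_sup_left.trans hW1) (le_sup_right.trans hW1) (by omega)
    (fun A hAF hXA => hW2.trans (hA A hAF hXA))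
  exact absurd (hHmem P hPH).2 (not_lt.mpr hbound)

/-- The degrees of all points (one-dimensional subspaces), listed in non-increasing order:
`d_1 ≥ d_2 ≥ ...`. -/
noncomputable def degreeList (F : Finset (Submodule K V)) : List ℕ :=
  ((univ.filter (fun P : Submodule K V => finrank K P = 1)).val.map (deg F)).sort (· ≥ ·)

/-- The `j`-th largest point-degree `d_j(F)` (`j ≥ 1`). -/
noncomputable def nthDegree (F : Finset (Submodule K V)) (j : ℕ) : ℕ :=
  (degreeList F).getD (j - 1) 0

lemma nthDegree_le (F : Finset (Submodule K V)) (j B : ℕ) (hj : 1 ≤ j)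
    (h : (univ.filter (fun P : Submodule K V => finrank K P = 1 ∧ B < deg F P)).card < j) :
    nthDegree F j ≤ B := by
  by_contra hcon
  push Not at hcon
  set l := degreeList F with hl
  have hsorted : l.Pairwise (· ≥ ·) := Multiset.pairwise_sort _ _
  have hlen : j - 1 < l.length := by
    by_contra hge
    push Not at hge
    rw [nthDegree, ← hl, List.getD_eq_default _ _ hge] at hcon
    exact absurd hcon (Nat.not_lt_zero _)
  have hget : B < l[j - 1] := by
    rw [nthDegree, ← hl, List.getD_eq_getElem _ _ hlen] at hcon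
    exact hcon
  have hcount : l.countP (fun x => decide (B < x))
      = (univ.filter (fun P : Submodule K V => finrank K P = 1 ∧ B < deg F P)).card := by
    rw [← Multiset.coe_countP, hl, degreeList, Multiset.sort_eq, Multiset.countP_map]
    rw [← Finset.filter_filter]
    rfl
  have htake : (l.take j).countP (fun x => decide (B < x)) = (l.take j).length := by
    rw [List.countP_eq_length]
    intro x hx
    rw [decide_eq_true_eq]
    obtain ⟨m, hm, rfl⟩ := List.mem_iff_getElem.mp hx
    have hm' : m < j := by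
      rw [List.length_take] at hm
      omega
    rw [List.getElem_take]
    rcases Nat.lt_or_ge m (j - 1) with h1 | h1
    · have := List.pairwise_iff_getElem.mp hsorted m (j - 1) (by omega) hlen h1
      exact lt_of_lt_of_le hget this
    · have : m = j - 1 := by omega
      subst this
      exact hget
  have hlen2 : (l.take j).length = j := by
    rw [List.length_take]
    omega
  have hle := (List.take_sublist j l).countP_le (p := fun x => decide (B < x))
  omega

end

/-- The number `[m] = (q^m - 1)/(q - 1)` of points of an `m`-dimensional space. -/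
def br (q m : ℕ) : ℕ := (q ^ m - 1) / (q - 1)

lemma br_mul (q m : ℕ) (_hq : 1 < q) : br q m * (q - 1) = q ^ m - 1 :=
  Nat.div_mul_cancel (by simpa using Nat.sub_dvd_pow_sub_pow q 1 m)

section
variable (K : Type) [Field K] [Finite K]

lemma explicit (n k i : ℕ) (hk : 3 ≤ k) (hn : 3 * k ≤ n) (hi : 1 ≤ i) (hik : i ≤ k)
    (F : Finset (Submodule K (Fin n → K))) (hF : ∀ A ∈ F, finrank K A = k)
    (hint : ∀ A ∈ F, ∀ B ∈ F, 1 ≤ finrank K (A ⊓ B : Submodule K (Fin n → K))) :
    nthDegree F (br (Nat.card K) (i + 1)) ≤ gb (Nat.card K) (n - 2) (k - 2)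
      + Nat.card K ^ (k - 1) * gb (Nat.card K) (n - i - 1) (k - i) := by
  have hq1 : 1 < Nat.card K := Finite.one_lt_card
  have hV : finrank K (Fin n → K) = n := by simp
  have h := main_count F k i hF hk (by omega) hi hik (fun A hA B hB h0 => by
    have := hint A hA B hB
    rw [h0] at this
    simp at this)
  rw [hV, ← br_mul _ _ hq1] at h
  have h2 := Nat.lt_of_mul_lt_mul_right h
  exact nthDegree_le F _ _ (by omega) h2

/-- **Q1 of MP_6601f2_co holds, with `C = 3`.**  Part 1: for every finite field `K` with `q`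
elements, all `k ≥ 3`, `n ≥ 3k`, `1 ≤ i ≤ k` and every intersecting family `F` of `k`-dimensional
subspaces of `K^n`, the `[i+1]`-th largest point-degree is at most
`[n-2 choose k-2]_q + q^(k-1) [n-i-1 choose k-i]_q`.  Part 2: the statement of Q1.  Part 3: the
quotient of products defining `gb` is exact, and `gb q a b` counts the `b`-dimensional subspaces
of `K^a`. -/
theorem result :
    (∀ (n k i : ℕ), 3 ≤ k → 3 * k ≤ n → 1 ≤ i → i ≤ k →
      ∀ F : Finset (Submodule K (Fin n → K)), (∀ A ∈ F, finrank K A = k) →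
        (∀ A ∈ F, ∀ B ∈ F, 1 ≤ finrank K (A ⊓ B : Submodule K (Fin n → K))) →
        nthDegree F (br (Nat.card K) (i + 1)) ≤ gb (Nat.card K) (n - 2) (k - 2)
          + Nat.card K ^ (k - 1) * gb (Nat.card K) (n - i - 1) (k - i)) ∧
    (∀ ε : ℝ, 0 < ε → ∃ C : ℝ, ∃ k₀ : ℕ, ∀ k : ℕ, k₀ ≤ k → ∀ i : ℕ, ε * k ≤ i → i ≤ k →
      ∀ n : ℕ, C * k < n →
      ∀ F : Finset (Submodule K (Fin n → K)), (∀ A ∈ F, finrank K A = k) →
        (∀ A ∈ F, ∀ B ∈ F, 1 ≤ finrank K (A ⊓ B : Submodule K (Fin n → K))) →
        nthDegree F (br (Nat.card K) (i + 1)) ≤ gb (Nat.card K) (n - 2) (k - 2)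
          + Nat.card K ^ (k - 1) * gb (Nat.card K) (n - i - 1) (k - i)) ∧
    (∀ a b : ℕ, b ≤ a →
      gb (Nat.card K) a b * ∏ j ∈ range b, (Nat.card K ^ (b - j) - 1)
        = ∏ j ∈ range b, (Nat.card K ^ (a - j) - 1) ∧
      gb (Nat.card K) a b = Nat.card {W : Submodule K (Fin a → K) // finrank K W = b}) := by
  refine ⟨fun n k i h1 h2 h3 h4 F h5 h6 => explicit K n k i h1 h2 h3 h4 F h5 h6, ?_, ?_⟩
  · intro ε hε
    refine ⟨3, 3, fun k hk i hi hik n hn F hF hint => ?_⟩
    have hk0 : (0 : ℝ) < k := by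
      have : (3 : ℝ) ≤ k := by exact_mod_cast hk
      linarith
    have hi0 : (0 : ℝ) < i := lt_of_lt_of_le (mul_pos hε hk0) hi
    have hi1 : 1 ≤ i := by
      have : 0 < i := by exact_mod_cast hi0
      omega
    have hn' : 3 * k < n := by exact_mod_cast hn
    exact explicit K n k i hk (by omega) hi1 hik F hF hint
  · intro a b hab
    have hV : finrank K (Fin a → K) = a := by simp
    have h1 := cnt_mul (K := K) b (Fin a → K) (by omega)
    have h2 := cnt_eq_gb (K := K) (Fin a → K) b (by omega)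
    rw [hV] at h1 h2
    refine ⟨by rw [← h2]; exact h1, ?_⟩
    rw [← h2, cnt, Nat.card_eq_fintype_card, Fintype.card_subtype]

end
end Pool.Agent.Results.MP_6601f2_co.HighDegreePoints
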